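import Pool.Agent.helper29.NS.Spec2

/-! Project ns, module BE: equicontinuity along sequentially compact families of curves. -/

namespace NS

open MeasureTheory Filter Topology Set

theorem BE : BE_stmt := by
  intro Y _ C hC α β F hF e he
  by_contra hcon
  push Not at hcon
  have hch : ∀ n : ℕ, ∃ γ ∈ C, ∃ t ∈ Icc α β, ∃ t' ∈ Icc α β, |t - t'| < 1 / ((n : ℝ) + 1) ∧
      e ≤ |F (γ t) - F (γ t')| := fun n => hcon _ (by positivity)
  choose s hs t ht t' ht' hd hF' using hch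
  obtain ⟨γ, hγ, φ, hφ, hlim⟩ := hC.2 s hs
  obtain ⟨t0, _, ψ, hψ, hψlim⟩ := isCompact_Icc.tendsto_subseq (fun k => ht (φ k))
  have hcont : Continuous γ := hC.1 γ hγ
  have hlim2 : TendstoLocallyUniformly (fun k => s (φ (ψ k))) γ atTop := by
    intro u hu x
    obtain ⟨v, hv, h⟩ := hlim u hu x
    exact ⟨v, hv, hψ.tendsto_atTop.eventually h⟩
  have hsm : Tendsto (fun k : ℕ => 1 / ((φ (ψ k) : ℝ) + 1)) atTop (𝓝 0) :=
    tendsto_one_div_add_atTop_nhds_zero_nat.comp (hφ.tendsto_atTop.comp hψ.tendsto_atTop)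
  have hdiff : Tendsto (fun k => t (φ (ψ k)) - t' (φ (ψ k))) atTop (𝓝 0) :=
    squeeze_zero_norm (fun k => (hd (φ (ψ k))).le) hsm
  have hψlim' : Tendsto (fun k => t' (φ (ψ k))) atTop (𝓝 t0) := by
    have h := hψlim.sub hdiff
    simp only [Function.comp_apply, sub_zero] at h
    refine h.congr fun k => ?_
    ring
  have h1 : Tendsto (fun k => F (s (φ (ψ k)) (t (φ (ψ k))))) atTop (𝓝 (F (γ t0))) :=
    (hF.tendsto _).comp (hlim2.tendsto_comp hcont.continuousAt hψlim)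
  have h2 : Tendsto (fun k => F (s (φ (ψ k)) (t' (φ (ψ k))))) atTop (𝓝 (F (γ t0))) :=
    (hF.tendsto _).comp (hlim2.tendsto_comp hcont.continuousAt hψlim')
  have h3 := (h1.sub h2).abs
  rw [sub_self, abs_zero] at h3
  have h4 := ge_of_tendsto' h3 (fun k => hF' (φ (ψ k)))
  linarith

end NS
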