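import Pool.Agent.helper29.NS.Spec2

/-! Project ns, module P1: the curve of pressures in the space of square integrable functions. -/

namespace NS

open MeasureTheory Filter Topology Set

theorem P1 (hCM : CM_stmt) : P1_stmt := by
  intro Ω hΩ hb B p hp
  have hlip := (hCM 2 B B p hp le_rfl).2
  have hbd : ∀ z, |p z| ≤ B := hp.1
  have hcont : Continuous p := hp.2.1.continuous
  have hB : 0 ≤ B := (abs_nonneg _).trans (hbd 0)
  haveI : IsFiniteMeasure (volume.restrict Ω) := ⟨by
    rw [Measure.restrict_apply_univ]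
    exact hb.measure_lt_top⟩
  have hmem : ∀ t : ℝ, MemLp (fun q : ℝ × ℝ => p (t, q)) 2 (volume.restrict Ω) := by
    intro t
    refine MemLp.of_bound ?_ B (Eventually.of_forall fun q => ?_)
    · exact (hcont.comp (Continuous.prodMk_right t)).aestronglyMeasurable
    · rw [Real.norm_eq_abs]
      exact hbd _
  refine ⟨fun t => (hmem t).toLp _, ?_, fun t => (hmem t).coeFn_toLp⟩
  refine (LipschitzWith.of_dist_le' (K := (measureUnivNNReal (volume.restrict Ω) : ℝ) ^
    (ENNReal.toReal 2)⁻¹ * (3 * B)) ?_).continuous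
  intro t s
  rw [dist_eq_norm, ← MemLp.toLp_sub]
  have h3 : 0 ≤ 3 * B * dist t s := by positivity
  refine (Lp.norm_le_of_ae_bound h3 ?_).trans (le_of_eq (by ring))
  filter_upwards [((hmem t).sub (hmem s)).coeFn_toLp] with q hq
  rw [hq]
  simp only [Pi.sub_apply, Real.norm_eq_abs]
  refine (hlip _ _).trans (le_of_eq ?_)
  congr 1
  rw [Prod.dist_eq, dist_self]
  exact max_eq_left dist_nonneg

end NS
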